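import Pool.Agent.H92.AT.Path

/-!
# Scaling, further neighbours of the root, growth, and the last vertices
-/

namespace Pool.Agent.H92.AT

open Pool.Agent.H67.Lob (sg IsPar)
open Pool.Agent.H92.OL

variable {V : Type} [DecidableEq V]

variable {par : V → V} {v a : V} {A : Finset V} {f : V → ℤ} {dep : V → ℕ}

omit [DecidableEq V] in
theorem sg_scale (K : ℤ) (x : V) : sg par (fun x => K * f x) x = K * sg par f x := by
  unfold sg
  ring

omit [DecidableEq V] in
theorem pl_scale {K : ℤ} (hK : K ≠ 0) (h : PL par v A f) : PL par v A (fun x => K * f x) := by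
  refine ⟨?_, ?_, ?_⟩
  · intro x hx y hy he
    exact h.inj x hx y hy (mul_left_cancel₀ hK he)
  · intro x hx hxv hpx y hy hyv hpy he
    rw [sg_scale, sg_scale] at he
    exact h.injs x hx hxv hpx y hy hyv hpy (mul_left_cancel₀ hK he)
  · intro x hx hxv hpx
    obtain ⟨z, hz, hz2⟩ := h.sub x hx hxv hpx
    exact ⟨z, hz, by rw [sg_scale, ← hz2]⟩

omit [DecidableEq V] in
theorem opn_scale {K o : ℤ} (hK : K ≠ 0) (h : Opn par v A f o) :
    Opn par v A (fun x => K * f x) (K * o) := by
  refine ⟨?_, ?_⟩
  · obtain ⟨z, hz, hz2⟩ := h.mem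
    exact ⟨z, hz, by rw [hz2]⟩
  · intro x hx hxv hpx he
    rw [sg_scale] at he
    exact h.ns x hx hxv hpx (mul_left_cancel₀ hK he)

/-- further neighbours of the root -/
theorem solos {K : ℤ} (h : PL par v A f) (hfv : f v = 0) (hvA : v ∈ A)
    (hK : ∀ x ∈ A, f x ≤ 0 ∨ K ≤ f x) (U : Finset V) :
    (∀ u ∈ U, u ∉ A ∧ u ≠ v ∧ par u = v) → (∀ x ∈ A, x ≠ v → par x ∉ U) → (U.card : ℤ) < K →
    ∃ g, PL par v (A ∪ U) g ∧ (∀ o, Opn par v A f o → Opn par v (A ∪ U) g o) ∧
      (∀ x ∈ A, g x = f x) ∧ ∀ x ∈ U, 0 < g x ∧ g x ≤ U.card := by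
  induction U using Finset.induction_on with
  | empty =>
    intro _ _ _
    rw [Finset.union_empty]
    exact ⟨f, h, fun _ ho => ho, fun _ _ => rfl, fun x hx => absurd hx (Finset.notMem_empty _)⟩
  | insert u U huU ih =>
    intro hU hAU hc
    rw [Finset.card_insert_of_notMem huU] at hc
    push_cast at hc
    obtain ⟨g, k1, k2, k3, k4⟩ := ih (fun x hx => hU x (Finset.mem_insert_of_mem hx))
      (fun x hx hxv hp => hAU x hx hxv (Finset.mem_insert_of_mem hp)) (by omega)
    obtain ⟨u1, u2, u3⟩ := hU u (Finset.mem_insert_self _ _)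
    have huA : u ∉ A ∪ U := by
      rw [Finset.mem_union]
      rintro (h | h)
      · exact u1 h
      · exact huU h
    have hch : ∀ x ∈ A ∪ U, x ≠ v → par x ≠ u := by
      intro x hx hxv he
      rcases Finset.mem_union.1 hx with h5 | h5
      · exact hAU x h5 hxv (he ▸ Finset.mem_insert_self _ _)
      · rw [(hU x (Finset.mem_insert_of_mem h5)).2.2] at he
        exact u2 he.symm
    have hnew : ∀ z ∈ A ∪ U, g z ≠ (U.card : ℤ) + 1 := by
      intro z hz he
      rcases Finset.mem_union.1 hz with h5 | h5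
      · rw [k3 z h5] at he
        rcases hK z h5 with h6 | h6
        · omega
        · omega
      · have := k4 z h5
        omega
    obtain ⟨l1, l2⟩ := add_solo k1 huA u2 u3 (by rw [k3 v hvA, hfv]) hch hnew
    have e1 : A ∪ insert u U = insert u (A ∪ U) := Finset.union_insert _ _ _
    rw [e1]
    refine ⟨_, l1, fun o ho => l2 o (k2 o ho), ?_, ?_⟩
    · intro x hx
      rw [upd_mem huA (Finset.mem_union_left _ hx), k3 x hx]
    · intro x hx
      rw [Finset.card_insert_of_notMem huU]
      push_cast
      rcases Finset.mem_insert.1 hx with rfl | hx'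
      · rw [Function.update_self]
        constructor <;> omega
      · rw [upd_mem huA (Finset.mem_union_right _ hx')]
        have := k4 x hx'
        omega

/-- state of the growth: `P` the greatest and `N` the least label, both open -/
structure Gr (par : V → V) (v : V) (T : Finset V) (f : V → ℤ) (P N : ℤ) : Prop where
  pl : PL par v T f
  oP : Opn par v T f P
  oN : Opn par v T f N
  hi : ∀ x ∈ T, f x ≤ P
  lo : ∀ x ∈ T, N ≤ f x
  hP : 0 < P
  hN : N < 0
  nz : ∀ x ∈ T, x ≠ v → f x ≠ 0
  bd : BD 2 T f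

theorem gstep {T : Finset V} {P N : ℤ} {b : V} (h : Gr par v T f P N) (hbT : b ∉ T) (hbv : b ≠ v)
    (hpb : par b ∈ T) (hpbv : par b ≠ v) (hch : ∀ x ∈ T, x ≠ v → par x ≠ b) :
    ∃ f' P' N', Gr par v (insert b T) f' P' N' ∧ ∀ x ∈ T, f' x = f x := by
  have hhP := h.hP
  have hhN := h.hN
  have hPN : N ≠ P := by omega
  have hnz := h.nz _ hpb hpbv
  obtain ⟨zP, hzP, hzP2⟩ := h.oP.mem
  obtain ⟨zN, hzN, hzN2⟩ := h.oN.mem
  by_cases hneg : f (par b) < 0
  · have hnew : ∀ z ∈ T, f z ≠ P - f (par b) := by
      intro z hz he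
      have := h.hi z hz
      omega
    obtain ⟨k1, k2, k3⟩ := add_leaf h.pl h.oP hbT hbv hpb hch (t := P - f (par b))
      (by ring) hnew
    have hold : ∀ x ∈ T, Function.update f b (P - f (par b)) x = f x := fun x hx => upd_mem hbT hx
    have hself : Function.update f b (P - f (par b)) b = P - f (par b) := Function.update_self _ _ _
    refine ⟨_, P - f (par b), N, ⟨k1, k2, k3 N h.oN hPN, ?_, ?_, by omega, h.hN, ?_, ?_⟩, hold⟩
    · intro x hx
      rcases Finset.mem_insert.1 hx with rfl | hx'
      · rw [hself]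
      · rw [hold x hx']
        have := h.hi x hx'
        omega
    · intro x hx
      rcases Finset.mem_insert.1 hx with rfl | hx'
      · rw [hself]
        omega
      · rw [hold x hx']
        exact h.lo x hx'
    · intro x hx hxv
      rcases Finset.mem_insert.1 hx with rfl | hx'
      · rw [hself]
        omega
      · rw [hold x hx']
        exact h.nz x hx' hxv
    · refine bd_add (by norm_num) h.bd hbT hzP hpb ?_
      rw [hzP2]
      exact abs_sub_le' _ _
  · have hnew : ∀ z ∈ T, f z ≠ N - f (par b) := by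
      intro z hz he
      have := h.lo z hz
      omega
    obtain ⟨k1, k2, k3⟩ := add_leaf h.pl h.oN hbT hbv hpb hch (t := N - f (par b))
      (by ring) hnew
    have hold : ∀ x ∈ T, Function.update f b (N - f (par b)) x = f x := fun x hx => upd_mem hbT hx
    have hself : Function.update f b (N - f (par b)) b = N - f (par b) := Function.update_self _ _ _
    refine ⟨_, P, N - f (par b), ⟨k1, k3 P h.oP hPN.symm, k2, ?_, ?_, h.hP, by omega, ?_, ?_⟩,
      hold⟩
    · intro x hx
      rcases Finset.mem_insert.1 hx with rfl | hx'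
      · rw [hself]
        omega
      · rw [hold x hx']
        exact h.hi x hx'
    · intro x hx
      rcases Finset.mem_insert.1 hx with rfl | hx'
      · rw [hself]
      · rw [hold x hx']
        have := h.lo x hx'
        omega
    · intro x hx hxv
      rcases Finset.mem_insert.1 hx with rfl | hx'
      · rw [hself]
        omega
      · rw [hold x hx']
        exact h.nz x hx' hxv
    · refine bd_add (by norm_num) h.bd hbT hzN hpb ?_
      rw [hzN2]
      exact abs_sub_le' _ _

theorem grow {P N : ℤ} (hdep : ∀ x, x ≠ v → dep x = dep (par x) + 1)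
    (h : Gr par v A f P N) (S : Finset V) :
    (∀ x ∈ S, x ∉ A ∧ x ≠ v ∧ par x ∈ A ∪ S ∧ par x ≠ v) → (∀ x ∈ A, x ≠ v → par x ∉ S) →
    ∃ f' P' N', Gr par v (A ∪ S) f' P' N' ∧ ∀ x ∈ A, f' x = f x := by
  induction S using Finset.induction_on_max_value dep with
  | empty =>
    intro _ _
    refine ⟨f, P, N, ?_, fun _ _ => rfl⟩
    rw [Finset.union_empty]
    exact h
  | insert b S hbS hmax ih =>
    intro hS hAS
    have hS' : ∀ x ∈ S, x ∉ A ∧ x ≠ v ∧ par x ∈ A ∪ S ∧ par x ≠ v := by
      intro x hx
      obtain ⟨h1, h3, h4, h5⟩ := hS x (Finset.mem_insert_of_mem hx)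
      refine ⟨h1, h3, ?_, h5⟩
      rcases Finset.mem_union.1 h4 with h6 | h6
      · exact Finset.mem_union_left _ h6
      · rcases Finset.mem_insert.1 h6 with h6 | h6
        · exfalso
          have h7 := hdep x h3
          have h8 := hmax x hx
          rw [h6] at h7
          omega
        · exact Finset.mem_union_right _ h6
    obtain ⟨f', P', N', hI, hold⟩ := ih hS'
      (fun x hx hxv hp => hAS x hx hxv (Finset.mem_insert_of_mem hp))
    obtain ⟨a1, a3, a4, a5⟩ := hS b (Finset.mem_insert_self _ _)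
    have hpb : par b ≠ b := by
      intro he
      have := hdep b a3
      rw [he] at this
      omega
    have hpb' : par b ∈ A ∪ S := by
      rcases Finset.mem_union.1 a4 with h6 | h6
      · exact Finset.mem_union_left _ h6
      · rcases Finset.mem_insert.1 h6 with h6 | h6
        · exact absurd h6 hpb
        · exact Finset.mem_union_right _ h6
    have hbT : b ∉ A ∪ S := by
      rw [Finset.mem_union]
      rintro (h5 | h5)
      · exact a1 h5
      · exact hbS h5
    have hch : ∀ x ∈ A ∪ S, x ≠ v → par x ≠ b := by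
      intro x hx hxv he
      rcases Finset.mem_union.1 hx with hx' | hx'
      · exact hAS x hx' hxv (he ▸ Finset.mem_insert_self _ _)
      · have h7 := hdep x hxv
        have h8 := hmax x hx'
        rw [he] at h7
        omega
    obtain ⟨f'', P'', N'', hI', hold'⟩ := gstep hI hbT a3 hpb' a5 hch
    have e1 : A ∪ insert b S = insert b (A ∪ S) := Finset.union_insert _ _ _
    refine ⟨f'', P'', N'', ?_, ?_⟩
    · rw [e1]
      exact hI'
    · intro x hx
      rw [hold' x (Finset.mem_union_left _ hx), hold x hx]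

/-- the twins and the leaves below them -/
theorem ending {T W : Finset V} {P N s : ℤ} {m d c : V} (h : Gr par v T f P N) (hfv : f v = 0)
    (hvT : v ∈ T) (hm : m ∉ T) (hd : d ∉ T) (hmd : m ≠ d) (hpm : par m ∈ T) (hpd : par d ∈ T)
    (hc : c ∈ T) (hpc : par c = m) (hchm : ∀ x ∈ T, x ≠ v → par x = m → x = c)
    (hchd : ∀ x ∈ T, x ≠ v → par x ≠ d) (hfc : f c = -s)
    (hop : f (par d) = -f (par m)) (hn0 : f (par m) ≠ 0) (hs : 0 < s + f (par m)) (hs0 : 0 < s)
    (hW : ∀ z ∈ W, z ∉ T ∧ z ≠ m ∧ z ≠ d ∧ z ≠ v ∧ (par z = m ∨ par z = d))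
    (hWc : ∀ x, x ≠ v → par x ∉ W) :
    ∃ g, PL par v (insert d (insert m T) ∪ W) g ∧ g v = 0 ∧
      BD 3 (insert d (insert m T) ∪ W) g := by
  have hhP := h.hP
  have hhN := h.hN
  obtain ⟨k1, k2⟩ := add_twin (t := P + s) (t' := P + s + f (par m)) h.pl h.oP hm hd hmd hpm hpd hc
    hpc hchm hchd rfl (by rw [hop]; ring) (by rw [hfc]; ring) (by omega)
    (fun z hz he => by
      have := h.hi z hz
      omega)
    (fun z hz he => by
      have := h.hi z hz
      omega)
  have hd' : d ∉ insert m T := by
    rw [Finset.mem_insert]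
    rintro (h3 | h3)
    · exact hmd h3.symm
    · exact hd h3
  obtain ⟨zP, hzP, hzP2⟩ := h.oP.mem
  have bd1 : BD 2 (insert m T) (Function.update f m (P + s)) := by
    refine bd_add (by norm_num) h.bd hm hzP hc ?_
    rw [hzP2, hfc, abs_neg]
    exact abs_add_le _ _
  have fm1 : Function.update f m (P + s) m = P + s := Function.update_self _ _ _
  have fA1 : ∀ x ∈ T, Function.update f m (P + s) x = f x := fun x hx => upd_mem hm hx
  have bd2 : BD 2 (insert d (insert m T))
      (Function.update (Function.update f m (P + s)) d (P + s + f (par m))) := by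
    refine bd_add (by norm_num) bd1 hd' (Finset.mem_insert_self m T)
      (Finset.mem_insert_of_mem hpm) ?_
    rw [fm1, fA1 _ hpm]
    exact abs_add_le _ _
  obtain ⟨g, hg⟩ : ∃ g, g = Function.update (Function.update f m (P + s)) d (P + s + f (par m)) :=
    ⟨_, rfl⟩
  have gd : g d = P + s + f (par m) := by
    rw [hg]
    exact Function.update_self _ _ _
  have gm : g m = P + s := by
    rw [hg, Function.update_of_ne hmd, fm1]
  have gA : ∀ x ∈ T, g x = f x := by
    intro x hx
    rw [hg, upd_mem hd' (Finset.mem_insert_of_mem hx), fA1 x hx]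
  rw [← hg] at k1 k2 bd2
  obtain ⟨g', l1, l2, l3, l4, l5, l6⟩ := nadd k1 (k2 N h.oN (by omega))
    (fun x hx => by
      rcases Finset.mem_insert.1 hx with rfl | hx'
      · rw [gd]
        omega
      · rcases Finset.mem_insert.1 hx' with rfl | hx''
        · rw [gm]
          omega
        · rw [gA x hx'']
          exact h.lo x hx'') W
    (fun z hz => by
      obtain ⟨w1, w2, w3, w4, w5⟩ := hW z hz
      refine ⟨?_, w4, ?_, ?_⟩
      · rw [Finset.mem_insert, Finset.mem_insert]
        rintro (h5 | h5 | h5)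
        · exact w3 h5
        · exact w2 h5
        · exact w1 h5
      · rcases w5 with h5 | h5
        · rw [h5]
          exact Finset.mem_insert_of_mem (Finset.mem_insert_self _ _)
        · rw [h5]
          exact Finset.mem_insert_self _ _
      · rcases w5 with h5 | h5
        · rw [h5, gm]
          omega
        · rw [h5, gd]
          omega)
    (fun x _ hxv => hWc x hxv)
  refine ⟨g', l1, ?_, bd_mono (by norm_num) (l6 2 (by norm_num) bd2)⟩
  rw [l4 v (Finset.mem_insert_of_mem (Finset.mem_insert_of_mem hvT)), gA v hvT, hfv]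

end Pool.Agent.H92.AT
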