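import Pool.Agent.H92.AT.Twin
import Pool.Agent.H67.Lob.Tree

/-!
# Every tree with one vertex with many leaves is harmonious
-/

namespace Pool.Agent.H92.AT

open Pool.Agent.H67.Lob (sg IsPar)
open Pool.Agent.H92.OL

variable {V : Type}

variable {par : V → V} {v : V} {dep : V → ℕ}

/-- below a vertex `q` which is not a leaf there is, at even distance, a vertex `a` with a child `d`
whose children are leaves -/
theorem even_path [Fintype V] (hdep : ∀ x, x ≠ v → dep x = dep (par x) + 1) {D : ℕ}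
    (hD : ∀ x, dep x ≤ D) : ∀ n q, D - dep q ≤ n → (∃ z, z ≠ v ∧ par z = q) →
    ∃ a d k, par^[2 * k] a = q ∧ dep a = dep q + 2 * k ∧ d ≠ v ∧ par d = a ∧
      ∀ x, x ≠ v → par x = d → ∀ z, z ≠ v → par z ≠ x := by
  intro n
  induction n with
  | zero =>
    rintro q hq ⟨z, hz, hz2⟩
    exfalso
    have h1 := hdep z hz
    have h2 := hD z
    rw [hz2] at h1
    omega
  | succ n ih =>
    rintro q hq ⟨z, hz, hz2⟩
    by_cases h1 : ∀ x, x ≠ v → par x = q → ∀ y, y ≠ v → par y ≠ x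
    · refine ⟨q, z, 0, rfl, rfl, hz, hz2, ?_⟩
      intro x hx hx2
      exact absurd hx2 (h1 z hz hz2 x hx)
    · push Not at h1
      obtain ⟨q', a1, a2, y, a3, a4⟩ := h1
      by_cases h2 : ∀ x, x ≠ v → par x = q' → ∀ y, y ≠ v → par y ≠ x
      · exact ⟨q, q', 0, rfl, rfl, a1, a2, h2⟩
      · push Not at h2
        obtain ⟨q'', b1, b2, y', b3, b4⟩ := h2
        have e1 := hdep q' a1
        have e2 := hdep q'' b1
        rw [a2] at e1
        rw [b2] at e2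
        have e3 := hD q''
        obtain ⟨a, d, k, k1, k2, k3, k4, k5⟩ := ih q'' (by omega) ⟨y', b3, b4⟩
        refine ⟨a, d, k + 1, ?_, by omega, k3, k4, k5⟩
        have e4 : 2 * (k + 1) = (2 * k + 1) + 1 := by ring
        rw [e4, Function.iterate_succ_apply', Function.iterate_succ_apply', k1, b2, a2]

theorem star [Fintype V] [DecidableEq V] {L : Finset V} (hL : ∀ x, x ∈ L ↔ x ≠ v)
    (hp : ∀ x ∈ L, par x = v) (hc : 0 < L.card) :
    ∃ F : V → ZMod (Fintype.card V - 1), Function.Surjective F ∧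
      ∀ x y, x ≠ v → y ≠ v → F x + F (par x) = F y + F (par y) → x = y := by
  have hLe : L = Finset.univ.erase v := by
    ext x
    rw [hL, Finset.mem_erase]
    exact ⟨fun h => ⟨h, Finset.mem_univ _⟩, fun h => h.1⟩
  have hcV : L.card = Fintype.card V - 1 := by
    rw [hLe, Finset.card_erase_of_mem (Finset.mem_univ _), Finset.card_univ]
  rw [← hcV]
  have : NeZero L.card := ⟨hc.ne'⟩
  let e : L ≃ ZMod L.card := Fintype.equivOfCardEq (by rw [Fintype.card_coe, ZMod.card])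
  obtain ⟨F, hFL, hFv⟩ : ∃ F : V → ZMod L.card, (∀ x (h : x ∈ L), F x = e ⟨x, h⟩) ∧
      ∀ x, x ∉ L → F x = 0 := by
    refine ⟨fun x => if h : x ∈ L then e ⟨x, h⟩ else 0, ?_, ?_⟩
    · intro x h
      exact dif_pos h
    · intro x h
      exact dif_neg h
  have hv : v ∉ L := fun h => (hL v).1 h rfl
  refine ⟨F, ?_, ?_⟩
  · intro y
    refine ⟨(e.symm y : V), ?_⟩
    rw [hFL _ (e.symm y).2]
    simp
  · intro x y hxv hyv he
    have hx := (hL x).2 hxv
    have hy := (hL y).2 hyv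
    rw [hp x hx, hp y hy, hFv v hv, add_zero, add_zero, hFL x hx, hFL y hy] at he
    exact congrArg Subtype.val (e.injective he)

theorem rooted [Fintype V] [DecidableEq V] {L : Finset V}
    (hd0 : dep v = 0) (hdep : ∀ x, x ≠ v → dep x = dep (par x) + 1)
    (hL : ∀ x ∈ L, x ≠ v ∧ par x = v ∧ ∀ z, z ≠ v → par z ≠ x)
    (hL' : ∀ x, x ≠ v → par x = v → (∀ z, z ≠ v → par z ≠ x) → x ∈ L)
    (hLA : 2 ^ (Lᶜ).card ≤ L.card) :
    ∃ F : V → ZMod (Fintype.card V - 1), Function.Surjective F ∧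
      ∀ x y, x ≠ v → y ≠ v → F x + F (par x) = F y + F (par y) → x = y := by
  by_cases hB : ∃ p, p ≠ v ∧ ∃ q1 q2, q1 ≠ q2 ∧ q1 ≠ v ∧ q2 ≠ v ∧ par q1 = p ∧ par q2 = p ∧
      (∃ z, z ≠ v ∧ par z = q1) ∧ ∃ z, z ≠ v ∧ par z = q2
  · -- a deepest vertex with two children that are not leaves
    obtain ⟨B, hmB⟩ : ∃ B : Finset V, ∀ p, p ∈ B ↔ (p ≠ v ∧ ∃ q1 q2, q1 ≠ q2 ∧ q1 ≠ v ∧ q2 ≠ v ∧
        par q1 = p ∧ par q2 = p ∧ (∃ z, z ≠ v ∧ par z = q1) ∧ ∃ z, z ≠ v ∧ par z = q2) := by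
      classical
      refine ⟨Finset.univ.filter (fun p => p ≠ v ∧ ∃ q1 q2, q1 ≠ q2 ∧ q1 ≠ v ∧ q2 ≠ v ∧
        par q1 = p ∧ par q2 = p ∧ (∃ z, z ≠ v ∧ par z = q1) ∧ ∃ z, z ≠ v ∧ par z = q2),
        fun p => ?_⟩
      rw [Finset.mem_filter]
      exact ⟨fun h => h.2, fun h => ⟨Finset.mem_univ _, h⟩⟩
    obtain ⟨p0, hp0⟩ := hB
    obtain ⟨p, hpB, hmax⟩ := Finset.exists_max_image B dep ⟨p0, (hmB p0).2 hp0⟩
    obtain ⟨hpv, m, q, hmq, hmv, hqv, hpm, hpq, ⟨zm, hzm, hzm2⟩, hqz⟩ := (hmB p).1 hpB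
    obtain ⟨a, d, k, k1, k2, k3, k4, k5⟩ := even_path hdep
      (D := Finset.univ.sup dep) (fun x => Finset.le_sup (Finset.mem_univ x)) _ q le_rfl hqz
    have hdm := hdep m hmv
    rw [hpm] at hdm
    have hdq := hdep q hqv
    rw [hpq] at hdq
    have hdp := hdep p hpv
    obtain ⟨c, hcv, hpc, hlc⟩ : ∃ c, c ≠ v ∧ par c = m ∧
        ∀ x, x ≠ v → par x = m → x ≠ c → ∀ z, z ≠ v → par z ≠ x := by
      by_cases h1 : ∃ c, c ≠ v ∧ par c = m ∧ ∃ z, z ≠ v ∧ par z = c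
      · obtain ⟨c, c1, c2, c3⟩ := h1
        refine ⟨c, c1, c2, ?_⟩
        intro x hxv hpx hxc z hzv hpz
        have h2 : m ∈ B := (hmB m).2 ⟨hmv, c, x, hxc.symm, c1, hxv, c2, hpx, c3, z, hzv, hpz⟩
        have h3 := hmax m h2
        omega
      · refine ⟨zm, hzm, hzm2, ?_⟩
        intro x hxv hpx _ z hzv hpz
        exact h1 ⟨x, hxv, hpx, z, hzv, hpz⟩
    refine twin_case (i := k) (a := a) (d := d) (m := m) (c := c) hd0 hdep hL (by omega) k3 k4 hmv
      ?_ ?_ hcv hpc hlc k5 hLA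
    · rw [Function.iterate_succ_apply', k1, hpq, hpm]
    · rw [k1]
      exact hmq
  · by_cases hU : ∃ u, u ≠ v ∧ par u = v ∧ ∃ z, z ≠ v ∧ par z = u
    · obtain ⟨u, huv, hpu, z0, hz0, hz02⟩ := hU
      obtain ⟨c, hcv, hpc, hlc⟩ : ∃ c, c ≠ v ∧ par c = u ∧
          ∀ x, x ≠ v → par x = u → x ≠ c → ∀ z, z ≠ v → par z ≠ x := by
        by_cases h1 : ∃ c, c ≠ v ∧ par c = u ∧ ∃ z, z ≠ v ∧ par z = c
        · obtain ⟨c, c1, c2, c3⟩ := h1
          refine ⟨c, c1, c2, ?_⟩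
          intro x hxv hpx hxc z hzv hpz
          exact hB ⟨u, huv, c, x, hxc.symm, c1, hxv, c2, hpx, c3, z, hzv, hpz⟩
        · refine ⟨z0, hz0, hz02, ?_⟩
          intro x hxv hpx _ z hzv hpz
          exact h1 ⟨x, hxv, hpx, z, hzv, hpz⟩
      have hs : Setup par dep v u c L (Finset.univ.filter
          (fun x => x ≠ v ∧ par x = v ∧ x ∉ L ∧ x ≠ u)) := by
        refine ⟨hd0, hdep, huv, hpu, hcv, hpc, hL, ?_, ?_, ?_⟩
        · intro h
          exact (hL u h).2.2 z0 hz0 hz02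
        · intro x
          rw [Finset.mem_filter]
          exact ⟨fun h => h.2, fun h => ⟨Finset.mem_univ _, h⟩⟩
        · intro x hxv hpx hxc y hyv hpy
          exact absurd hpy (hlc x hxv hpx hxc y hyv)
      exact caseA hs hlc hLA
    · -- a star
      have hall : ∀ n x, dep x ≤ n → x ≠ v → x ∈ L := by
        intro n
        induction n with
        | zero =>
          intro x hx hxv
          have := hdep x hxv
          omega
        | succ n ih =>
          intro x hx hxv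
          have h1 := hdep x hxv
          by_cases h2 : par x = v
          · refine hL' x hxv h2 ?_
            intro z hzv hpz
            exact hU ⟨x, hxv, h2, z, hzv, hpz⟩
          · exact absurd rfl ((hL _ (ih (par x) (by omega) h2)).2.2 x hxv)
      have hpos : 0 < L.card := lt_of_lt_of_le (by positivity) hLA
      exact star (fun x => ⟨fun h => (hL x h).1, hall _ x le_rfl⟩) (fun x hx => (hL x hx).2.1) hpos

theorem main_thm [Fintype V] (G : SimpleGraph V) (hG : G.IsTree) (v : V)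
    (hcard : 2 ^ (Fintype.card V - {x | G.Adj v x ∧ ∀ z, G.Adj x z → z = v}.ncard) ≤
      {x | G.Adj v x ∧ ∀ z, G.Adj x z → z = v}.ncard) :
    ∃ F : V → ZMod (Fintype.card V - 1),
      Function.Surjective F ∧
      ∀ a b x y : V, G.Adj a b → G.Adj x y →
        F a + F b = F x + F y → s(a, b) = s(x, y) := by
  classical
  obtain ⟨par, hp⟩ := Pool.Agent.H67.Lob.exists_isPar G hG v
  obtain ⟨dep, hdepdef⟩ : ∃ dep : V → ℕ, ∀ x, dep x = G.dist x v :=
    ⟨fun x => G.dist x v, fun _ => rfl⟩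
  have hd0 : dep v = 0 := by rw [hdepdef, SimpleGraph.dist_self]
  have hdep : ∀ x, x ≠ v → dep x = dep (par x) + 1 := by
    intro x hx
    rw [hdepdef, hdepdef, hp.dist x hx]
  obtain ⟨L, hLdef⟩ : ∃ L : Finset V,
      L = Finset.univ.filter (fun x => G.Adj v x ∧ ∀ z, G.Adj x z → z = v) := ⟨_, rfl⟩
  have hmL : ∀ x, x ∈ L ↔ (G.Adj v x ∧ ∀ z, G.Adj x z → z = v) := by
    intro x
    rw [hLdef, Finset.mem_filter]
    exact ⟨fun h => h.2, fun h => ⟨Finset.mem_univ _, h⟩⟩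
  have hLv : ∀ x ∈ L, x ≠ v := by
    rintro x hx rfl
    exact G.irrefl ((hmL x).1 hx).1
  have hLset : {x | G.Adj v x ∧ ∀ z, G.Adj x z → z = v} = (L : Set V) := by
    ext x
    rw [Finset.mem_coe, hmL]
    rfl
  rw [hLset, Set.ncard_coe_finset, ← Finset.card_compl] at hcard
  obtain ⟨F, hF1, hF2⟩ := rooted (L := L) hd0 hdep
    (fun x hx => by
      obtain ⟨h1, h2⟩ := Pool.Agent.H67.Lob.par_leaf hp (hLv x hx) ((hmL x).1 hx).2
      exact ⟨hLv x hx, h1, h2⟩)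
    (fun x hxv hpx hno => by
      rw [hmL]
      refine ⟨?_, ?_⟩
      · have := hp.adj x hxv
        rw [hpx] at this
        exact this.symm
      · intro z hz
        rcases hp.edge x z hz with ⟨_, h2⟩ | ⟨h1, h2⟩
        · rw [h2, hpx]
        · exact absurd h2.symm (hno z h1))
    hcard
  refine ⟨F, hF1, ?_⟩
  have hedge : ∀ a b, G.Adj a b → ∃ x, x ≠ v ∧ s(a, b) = s(x, par x) ∧
      F a + F b = F x + F (par x) := by
    intro a b hab
    rcases hp.edge a b hab with ⟨h1, h2⟩ | ⟨h1, h2⟩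
    · exact ⟨a, h1, by rw [h2], by rw [h2]⟩
    · exact ⟨b, h1, by rw [h2, Sym2.eq_swap], by rw [h2, add_comm]⟩
  intro a b x y hab hxy he
  obtain ⟨p, hc1, hc2, hc3⟩ := hedge a b hab
  obtain ⟨d, hd1, hd2, hd3⟩ := hedge x y hxy
  rw [hc3, hd3] at he
  rw [hc2, hd2, hF2 p d hc1 hd1 he]

end Pool.Agent.H92.AT
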