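import Pool.Agent.H92.AT.Up

/-!
# A path with opposite labels

The path from `a` to the root is labelled such that the vertex at distance `2 i + 1` above `a` gets the
label `- f a`: first the middle edge, then one vertex below and one vertex above in turn, each time with
twice the last labels and the opposite signs (`sym_step`), then the vertices above (`up_step`).
-/

namespace Pool.Agent.H92.AT

open Pool.Agent.H67.Lob (sg IsPar)
open Pool.Agent.H92.OL

variable {V : Type} [DecidableEq V]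

variable {par : V → V} {v a : V} {A : Finset V} {f : V → ℤ} {dep : V → ℕ}

omit [DecidableEq V] in
theorem dep_iter (hd0 : dep v = 0) (hdep : ∀ x, x ≠ v → dep x = dep (par x) + 1) :
    ∀ t, t ≤ dep a → dep (par^[t] a) = dep a - t := by
  intro t
  induction t with
  | zero =>
    intro _
    simp
  | succ t ih =>
    intro ht
    have h1 := ih (by omega)
    rw [Function.iterate_succ_apply']
    have h2 : par^[t] a ≠ v := by
      intro h3
      rw [h3, hd0] at h1
      omega
    have h3 := hdep _ h2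
    omega

omit [DecidableEq V] in
theorem iter_inj (hd0 : dep v = 0) (hdep : ∀ x, x ≠ v → dep x = dep (par x) + 1) {s t : ℕ}
    (hs : s ≤ dep a) (ht : t ≤ dep a) (h : par^[s] a = par^[t] a) : s = t := by
  have h1 := dep_iter hd0 hdep s hs
  have h2 := dep_iter hd0 hdep t ht
  rw [h] at h1
  omega

omit [DecidableEq V] in
theorem iter_ne (hd0 : dep v = 0) (hdep : ∀ x, x ≠ v → dep x = dep (par x) + 1) {t : ℕ}
    (ht : t < dep a) : par^[t] a ≠ v := by
  intro h
  have h1 := dep_iter hd0 hdep t ht.le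
  rw [h, hd0] at h1
  omega

omit [DecidableEq V] in
theorem dep_zero (hdep : ∀ x, x ≠ v → dep x = dep (par x) + 1) {x : V} (h : dep x = 0) : x = v := by
  by_contra h1
  have := hdep x h1
  omega

/-- the symmetric part of the path, from index `lo` to index `hi` -/
structure Sym (par : V → V) (v a : V) (lo hi : ℕ) (A : Finset V) (f : V → ℤ) (B : ℤ) : Prop where
  mem : ∀ x, x ∈ A ↔ (x = v ∨ ∃ t, lo ≤ t ∧ t ≤ hi ∧ x = par^[t] a)
  pl : PL par v A f
  fv : f v = 0
  nz : ∀ x ∈ A, x ≠ v → f x ≠ 0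
  bd : BD 2 A f
  hB : 0 < B
  top : f (par^[hi] a) = B ∨ f (par^[hi] a) = -B
  bot : f (par^[lo] a) = -f (par^[hi] a)
  ob : Opn par v A f (f (par^[lo] a))
  ot : par (par^[hi] a) ≠ v → Opn par v A f (f (par^[hi] a))
  bb : ∀ x ∈ A, -B ≤ f x ∧ f x ≤ B

theorem sym_zero (hd0 : dep v = 0) (hdep : ∀ x, x ≠ v → dep x = dep (par x) + 1) {i : ℕ}
    (hi : i + 1 < dep a) : ∃ A f, Sym par v a i (i + 1) A f 1 := by
  obtain ⟨f0, h1, h2, h3, _⟩ := first (par := par) (v := v) ∅
    (fun x hx => absurd hx (Finset.notMem_empty _))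
  obtain ⟨z, hz⟩ : ∃ z, z = par^[i] a := ⟨_, rfl⟩
  obtain ⟨w, hw⟩ : ∃ w, w = par^[i + 1] a := ⟨_, rfl⟩
  have hzw : par z = w := by rw [hz, hw, Function.iterate_succ_apply']
  have hzv : z ≠ v := hz ▸ iter_ne hd0 hdep (by omega)
  have hwv : w ≠ v := hw ▸ iter_ne hd0 hdep hi
  have hwz : w ≠ z := by
    intro h
    rw [hw, hz] at h
    have := iter_inj hd0 hdep (by omega) (by omega) h
    omega
  have hm0 : ∀ x, x ∈ insert v (∅ : Finset V) ↔ x = v := by
    intro x
    rw [insert_empty_eq, Finset.mem_singleton]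
  have hf0 : ∀ x ∈ insert v (∅ : Finset V), f0 x = 0 := by
    intro x hx
    rw [(hm0 x).1 hx, h3]
  have hz0 : z ∉ insert v (∅ : Finset V) := fun h => hzv ((hm0 z).1 h)
  obtain ⟨k1, k2, k3⟩ := add_iso h1 hz0 (t := -1)
    (by
      rw [hzw, Finset.mem_insert, hm0]
      rintro (h | h)
      · exact hwz h
      · exact hwv h)
    (fun x hx hxv => absurd ((hm0 x).1 hx) hxv)
    (fun x hx => by rw [hf0 x hx]; decide)
  have fz1 : Function.update f0 z (-1) z = -1 := Function.update_self _ _ _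
  have fv1 : Function.update f0 z (-1) v = 0 := by
    rw [Function.update_of_ne hzv.symm, h3]
  obtain ⟨f1, hf1⟩ : ∃ f1, f1 = Function.update f0 z (-1) := ⟨_, rfl⟩
  rw [← hf1] at k1 k2 k3 fz1 fv1
  have hm1 : ∀ x, x ∈ insert z (insert v (∅ : Finset V)) ↔ (x = z ∨ x = v) := by
    intro x
    rw [Finset.mem_insert, hm0]
  have hw1 : w ∉ insert z (insert v (∅ : Finset V)) := by
    rw [hm1]
    rintro (h | h)
    · exact hwz h
    · exact hwv h
  have hpw : par w = v ∨ par w ∉ insert w (insert z (insert v (∅ : Finset V))) := by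
    by_cases hpw : par w = v
    · exact Or.inl hpw
    · right
      have h5 : dep (par w) ≠ 0 := fun h => hpw (dep_zero hdep h)
      have h6 := hdep w hwv
      have h7 := hdep z hzv
      rw [hzw] at h7
      rw [Finset.mem_insert, hm1]
      rintro (h | h | h)
      · rw [h] at h6
        omega
      · rw [h] at h6
        omega
      · exact hpw h
  obtain ⟨l1, l2, l3⟩ := up (t := 1) k1 (k3 0 h2) hw1 hwv hpw fv1 ((hm1 z).2 (Or.inl rfl)) hzw
    (fun x hx hxv _ => ((hm1 x).1 hx).resolve_right hxv)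
    (by rw [fz1]; norm_num)
    (fun x hx => by
      rcases (hm1 x).1 hx with h | h
      · rw [h, fz1]
        decide
      · rw [h, fv1]
        decide)
  have fw2 : Function.update f1 w 1 w = 1 := Function.update_self _ _ _
  have fz2 : Function.update f1 w 1 z = -1 := by rw [Function.update_of_ne hwz.symm, fz1]
  have fv2 : Function.update f1 w 1 v = 0 := by rw [Function.update_of_ne hwv.symm, fv1]
  obtain ⟨f2, hf2⟩ : ∃ f2, f2 = Function.update f1 w 1 := ⟨_, rfl⟩
  rw [← hf2] at l1 l2 l3 fw2 fz2 fv2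
  have hm2 : ∀ x, x ∈ insert w (insert z (insert v (∅ : Finset V))) ↔ (x = w ∨ x = z ∨ x = v) := by
    intro x
    rw [Finset.mem_insert, hm1]
  have hcase : ∀ x ∈ insert w (insert z (insert v (∅ : Finset V))),
      (x ≠ v → f2 x ≠ 0) ∧ -1 ≤ f2 x ∧ f2 x ≤ 1 := by
    intro x hx
    rcases (hm2 x).1 hx with rfl | rfl | rfl
    · rw [fw2]
      exact ⟨fun _ => by decide, by decide, by decide⟩
    · rw [fz2]
      exact ⟨fun _ => by decide, by decide, by decide⟩
    · rw [fv2]
      exact ⟨fun h => absurd rfl h, by decide, by decide⟩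
  refine ⟨_, f2, ?_, l1, fv2, fun x hx => (hcase x hx).1, ?_, one_pos, ?_, ?_, ?_, ?_,
    fun x hx => (hcase x hx).2⟩
  · intro x
    rw [hm2]
    constructor
    · rintro (h | h | h)
      · exact Or.inr ⟨i + 1, by omega, le_rfl, by rw [h, hw]⟩
      · exact Or.inr ⟨i, le_rfl, by omega, by rw [h, hz]⟩
      · exact Or.inl h
    · rintro (h | ⟨t, ht1, ht2, h⟩)
      · exact Or.inr (Or.inr h)
      · have : t = i ∨ t = i + 1 := by omega
        rcases this with rfl | rfl
        · exact Or.inr (Or.inl (by rw [h, hz]))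
        · exact Or.inl (by rw [h, hw])
  · intro x hx
    have h5 : (insert w (insert z (insert v (∅ : Finset V)))).card = 3 := by
      rw [Finset.card_insert_of_notMem hw1, Finset.card_insert_of_notMem hz0]
      simp
    rw [h5]
    have h6 : |f2 x| ≤ 1 := abs_le.2 (hcase x hx).2
    norm_num
    linarith
  · rw [← hw]
    exact Or.inl fw2
  · rw [← hw, ← hz, fw2, fz2]
  · rw [← hz, fz2]
    exact l3 (-1) k2 (by decide)
  · rw [← hw]
    intro h
    rw [fw2]
    exact l2 h

theorem sym_step (hd0 : dep v = 0) (hdep : ∀ x, x ≠ v → dep x = dep (par x) + 1) {lo hi : ℕ}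
    {B : ℤ} (hlh : lo < hi) (hhi : hi + 1 < dep a) (h : Sym par v a (lo + 1) hi A f B) :
    ∃ A' f', Sym par v a lo (hi + 1) A' f' (2 * B) := by
  obtain ⟨z, hz⟩ : ∃ z, z = par^[lo] a := ⟨_, rfl⟩
  obtain ⟨b, hb⟩ : ∃ b, b = par^[lo + 1] a := ⟨_, rfl⟩
  obtain ⟨w, hw⟩ : ∃ w, w = par^[hi] a := ⟨_, rfl⟩
  obtain ⟨w', hw'⟩ : ∃ w', w' = par^[hi + 1] a := ⟨_, rfl⟩
  obtain ⟨mem, pl, fv, nz, bd, hB, top, bot, ob, ot, bb⟩ := h
  rw [← hw] at top bot ot
  rw [← hb] at bot ob
  obtain ⟨E, hE⟩ : ∃ E, E = f w := ⟨_, rfl⟩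
  rw [← hE] at top bot ot
  rw [bot] at ob
  have hpz : par z = b := by rw [hz, hb, Function.iterate_succ_apply']
  have hpw : par w = w' := by rw [hw, hw', Function.iterate_succ_apply']
  have hzv : z ≠ v := hz ▸ iter_ne hd0 hdep (by omega)
  have hwv : w ≠ v := hw ▸ iter_ne hd0 hdep (by omega)
  have hwv' : w' ≠ v := hw' ▸ iter_ne hd0 hdep hhi
  have inA : ∀ t, t ≤ dep a → par^[t] a ∈ A → par^[t] a = v ∨ (lo + 1 ≤ t ∧ t ≤ hi) := by
    intro t ht hA
    rcases (mem _).1 hA with h1 | ⟨s, h1, h2, h3⟩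
    · exact Or.inl h1
    · have := iter_inj hd0 hdep ht (by omega) h3
      right
      omega
  have hzA : z ∉ A := by
    intro h1
    rw [hz] at h1 hzv
    rcases inA lo (by omega) h1 with h2 | h2
    · exact hzv h2
    · omega
  have hwA' : w' ∉ A := by
    intro h1
    rw [hw'] at h1 hwv'
    rcases inA (hi + 1) hhi.le h1 with h2 | h2
    · exact hwv' h2
    · omega
  have hbA : b ∈ A := (mem b).2 (Or.inr ⟨lo + 1, le_rfl, by omega, hb⟩)
  have hwA : w ∈ A := (mem w).2 (Or.inr ⟨hi, by omega, le_rfl, hw⟩)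
  have hvA : v ∈ A := (mem v).2 (Or.inl rfl)
  have parA : ∀ x ∈ A, x ≠ v → ∃ t, lo + 1 ≤ t ∧ t ≤ hi ∧ x = par^[t] a ∧
      par x = par^[t + 1] a := by
    intro x hx hxv
    obtain ⟨t, h1, h2, h3⟩ := ((mem x).1 hx).resolve_left hxv
    exact ⟨t, h1, h2, h3, by rw [h3, Function.iterate_succ_apply']⟩
  have hE0 : E ≠ 0 := by omega
  have hoE : Opn par v A f E := ot (by rw [hpw]; exact hwv')
  obtain ⟨k1, k2, k3⟩ := add_leaf (t := 2 * E) pl hoE hzA hzv (by rw [hpz]; exact hbA)
    (fun x hx hxv he => by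
      obtain ⟨t, h1, h2, h3, h4⟩ := parA x hx hxv
      rw [h4, hz] at he
      have := iter_inj hd0 hdep (by omega) (by omega) he
      omega)
    (by rw [hpz, bot]; ring)
    (fun x hx he => by
      have := bb x hx
      omega)
  have bd1 : BD 2 (insert z A) (Function.update f z (2 * E)) := by
    refine bd_add (by norm_num) bd hzA hwA hwA ?_
    rw [← hE, two_mul]
    exact abs_add_le _ _
  have fz1 : Function.update f z (2 * E) z = 2 * E := Function.update_self _ _ _
  have fA1 : ∀ x ∈ A, Function.update f z (2 * E) x = f x := fun x hx => upd_mem hzA hx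
  obtain ⟨f1, hf1⟩ : ∃ f1, f1 = Function.update f z (2 * E) := ⟨_, rfl⟩
  rw [← hf1] at k1 k2 k3 bd1 fz1 fA1
  have hwz' : w' ≠ z := by
    rw [hw', hz]
    intro h1
    have := iter_inj hd0 hdep (by omega) (by omega) h1
    omega
  have hwA1' : w' ∉ insert z A := by
    rw [Finset.mem_insert]
    rintro (h1 | h1)
    · exact hwz' h1
    · exact hwA' h1
  have hpw' : par w' = v ∨ par w' ∉ insert w' (insert z A) := by
    by_cases h1 : par w' = v
    · exact Or.inl h1
    · right
      have h2 : par w' = par^[hi + 2] a := by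
        rw [hw']
        exact (Function.iterate_succ_apply' par (hi + 1) a).symm
      have h3 : hi + 2 ≤ dep a := by omega
      rw [Finset.mem_insert, Finset.mem_insert]
      rintro (h4 | h4 | h4)
      · rw [h2, hw'] at h4
        have := iter_inj hd0 hdep h3 (by omega) h4
        omega
      · rw [h2, hz] at h4
        have := iter_inj hd0 hdep h3 (by omega) h4
        omega
      · rw [h2] at h4 h1
        rcases inA _ h3 h4 with h5 | h5
        · exact h1 h5
        · omega
  obtain ⟨l1, l2, l3⟩ := up (t := -(2 * E)) (z := w) k1 (k3 (-E) ob (by omega)) hwA1' hwv' hpw'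
    (by rw [fA1 v hvA, fv]) (Finset.mem_insert_of_mem hwA) hpw
    (fun x hx hxv hpx => by
      rcases Finset.mem_insert.1 hx with h1 | h1
      · rw [h1, hpz, hb, hw'] at hpx
        have := iter_inj hd0 hdep (by omega) (by omega) hpx
        omega
      · obtain ⟨t, h2, h3, h4, h5⟩ := parA x h1 hxv
        rw [h5, hw'] at hpx
        have := iter_inj hd0 hdep (by omega) (by omega) hpx
        have h6 : t = hi := by omega
        rw [h4, hw, h6])
    (by rw [fA1 w hwA, ← hE]; ring)
    (fun x hx he => by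
      rcases Finset.mem_insert.1 hx with h1 | h1
      · rw [h1, fz1] at he
        omega
      · rw [fA1 x h1] at he
        have := bb x h1
        omega)
  have bd2 : BD 2 (insert w' (insert z A)) (Function.update f1 w' (-(2 * E))) := by
    refine bd_add (by norm_num) bd1 hwA1' (Finset.mem_insert_of_mem hwA)
      (Finset.mem_insert_of_mem hwA) ?_
    rw [fA1 w hwA, ← hE, abs_neg, two_mul]
    exact abs_add_le _ _
  have fw2 : Function.update f1 w' (-(2 * E)) w' = -(2 * E) := Function.update_self _ _ _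
  have fA2 : ∀ x ∈ insert z A, Function.update f1 w' (-(2 * E)) x = f1 x :=
    fun x hx => upd_mem hwA1' hx
  obtain ⟨f2, hf2⟩ : ∃ f2, f2 = Function.update f1 w' (-(2 * E)) := ⟨_, rfl⟩
  rw [← hf2] at l1 l2 l3 bd2 fw2 fA2
  have hzI : z ∈ insert z A := Finset.mem_insert_self _ _
  refine ⟨insert w' (insert z A), f2, ?_, l1, ?_, ?_, bd2, by omega, ?_, ?_, ?_, ?_, ?_⟩
  · intro x
    rw [Finset.mem_insert, Finset.mem_insert, mem]
    constructor
    · rintro (h1 | h1 | h1 | ⟨t, h1, h2, h3⟩)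
      · exact Or.inr ⟨hi + 1, by omega, le_rfl, by rw [h1, hw']⟩
      · exact Or.inr ⟨lo, le_rfl, by omega, by rw [h1, hz]⟩
      · exact Or.inl h1
      · exact Or.inr ⟨t, by omega, by omega, h3⟩
    · rintro (h1 | ⟨t, h1, h2, h3⟩)
      · exact Or.inr (Or.inr (Or.inl h1))
      · by_cases h4 : t = hi + 1
        · left
          rw [h3, hw', h4]
        · by_cases h5 : t = lo
          · right
            left
            rw [h3, hz, h5]
          · exact Or.inr (Or.inr (Or.inr ⟨t, by omega, by omega, h3⟩))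
  · rw [fA2 v (Finset.mem_insert_of_mem hvA), fA1 v hvA, fv]
  · intro x hx hxv
    rcases Finset.mem_insert.1 hx with h1 | h1
    · rw [h1, fw2]
      omega
    · rw [fA2 x h1]
      rcases Finset.mem_insert.1 h1 with h2 | h2
      · rw [h2, fz1]
        omega
      · rw [fA1 x h2]
        exact nz x h2 hxv
  · rw [← hw', fw2]
    omega
  · rw [← hw', ← hz, fw2, fA2 z hzI, fz1]
    ring
  · rw [← hz, fA2 z hzI, fz1]
    exact l3 _ k2 (by omega)
  · rw [← hw', fw2]
    exact l2
  · intro x hx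
    rcases Finset.mem_insert.1 hx with h1 | h1
    · rw [h1, fw2]
      constructor <;> omega
    · rw [fA2 x h1]
      rcases Finset.mem_insert.1 h1 with h2 | h2
      · rw [h2, fz1]
        constructor <;> omega
      · rw [fA1 x h2]
        have := bb x h2
        constructor <;> omega

theorem sym_all (hd0 : dep v = 0) (hdep : ∀ x, x ≠ v → dep x = dep (par x) + 1) {i : ℕ}
    (hi : 2 * i + 1 < dep a) : ∀ l, l ≤ i → ∃ A f B, Sym par v a (i - l) (i + 1 + l) A f B := by
  intro l
  induction l with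
  | zero =>
    intro _
    obtain ⟨A, f, h⟩ := sym_zero (a := a) (i := i) hd0 hdep (by omega)
    exact ⟨A, f, 1, by simpa using h⟩
  | succ l ih =>
    intro hl
    obtain ⟨A, f, B, h⟩ := ih (by omega)
    have e1 : i - l = (i - (l + 1)) + 1 := by omega
    rw [e1] at h
    obtain ⟨A', f', h'⟩ := sym_step hd0 hdep (by omega) (by omega) h
    exact ⟨A', f', 2 * B, h'⟩

/-- the part of the path above `p` -/
structure Upp (par : V → V) (v a p : V) (T : ℕ) (A : Finset V) (f : V → ℤ) (o : ℤ) : Prop where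
  mem : ∀ x, x ∈ A ↔ (x = v ∨ ∃ t, t ≤ T ∧ x = par^[t] a)
  pl : PL par v A f
  fv : f v = 0
  nz : ∀ x ∈ A, x ≠ v → f x ≠ 0
  bd : BD 2 A f
  oo : Opn par v A f o
  ot : par (par^[T] a) ≠ v → Opn par v A f (f (par^[T] a))
  sgn : (f (par^[T] a) < 0 ∧ 0 < o ∧ ∀ x ∈ A, f (par^[T] a) ≤ f x ∧ f x ≤ o) ∨
    (o < 0 ∧ 0 < f (par^[T] a) ∧ ∀ x ∈ A, o ≤ f x ∧ f x ≤ f (par^[T] a))
  op : f p = -f a
  pA : p ∈ A
  aA : a ∈ A

theorem up_step (hd0 : dep v = 0) (hdep : ∀ x, x ≠ v → dep x = dep (par x) + 1) {T : ℕ} {p : V}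
    {o : ℤ} (hT : T + 1 < dep a) (h : Upp par v a p T A f o) :
    ∃ A' f' o', Upp par v a p (T + 1) A' f' o' := by
  obtain ⟨w, hw⟩ : ∃ w, w = par^[T] a := ⟨_, rfl⟩
  obtain ⟨w', hw'⟩ : ∃ w', w' = par^[T + 1] a := ⟨_, rfl⟩
  obtain ⟨mem, pl, fv, nz, bd, oo, ot, sgn, op, pA, aA⟩ := h
  rw [← hw] at ot sgn
  obtain ⟨E, hE⟩ : ∃ E, E = f w := ⟨_, rfl⟩
  rw [← hE] at ot sgn
  have hpw : par w = w' := by rw [hw, hw', Function.iterate_succ_apply']
  have hwv : w ≠ v := hw ▸ iter_ne hd0 hdep (by omega)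
  have hwv' : w' ≠ v := hw' ▸ iter_ne hd0 hdep hT
  have inA : ∀ t, t ≤ dep a → par^[t] a ∈ A → par^[t] a = v ∨ t ≤ T := by
    intro t ht hA
    rcases (mem _).1 hA with h1 | ⟨s, h1, h3⟩
    · exact Or.inl h1
    · have := iter_inj hd0 hdep ht (by omega) h3
      right
      omega
  have hwA' : w' ∉ A := by
    intro h1
    rw [hw'] at h1 hwv'
    rcases inA (T + 1) hT.le h1 with h2 | h2
    · exact hwv' h2
    · omega
  have hwA : w ∈ A := (mem w).2 (Or.inr ⟨T, le_rfl, hw⟩)
  have hvA : v ∈ A := (mem v).2 (Or.inl rfl)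
  have hoE : Opn par v A f E := ot (by rw [hpw]; exact hwv')
  have hpw' : par w' = v ∨ par w' ∉ insert w' A := by
    by_cases h1 : par w' = v
    · exact Or.inl h1
    · right
      have h2 : par w' = par^[T + 2] a := by
        rw [hw']
        exact (Function.iterate_succ_apply' par (T + 1) a).symm
      have h3 : T + 2 ≤ dep a := by omega
      rw [Finset.mem_insert]
      rintro (h4 | h4)
      · rw [h2, hw'] at h4
        have := iter_inj hd0 hdep h3 (by omega) h4
        omega
      · rw [h2] at h4 h1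
        rcases inA _ h3 h4 with h5 | h5
        · exact h1 h5
        · omega
  obtain ⟨l1, l2, l3⟩ := up (t := o - E) (z := w) pl oo hwA' hwv' hpw' fv hwA hpw
    (fun x hx hxv hpx => by
      obtain ⟨t, h3, h4⟩ := ((mem x).1 hx).resolve_left hxv
      have h5 : par x = par^[t + 1] a := by rw [h4, Function.iterate_succ_apply']
      rw [h5, hw'] at hpx
      have := iter_inj hd0 hdep (by omega) (by omega) hpx
      have h6 : t = T := by omega
      rw [h4, hw, h6])
    (by rw [← hE]; ring)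
    (fun x hx he => by
      rcases sgn with ⟨s1, s2, s3⟩ | ⟨s1, s2, s3⟩
      · have := s3 x hx
        omega
      · have := s3 x hx
        omega)
  obtain ⟨zo, hzo, hzo2⟩ := oo.mem
  have bd2 : BD 2 (insert w' A) (Function.update f w' (o - E)) := by
    refine bd_add (by norm_num) bd hwA' hzo hwA ?_
    rw [hzo2, ← hE]
    exact abs_sub_le' _ _
  have fw2 : Function.update f w' (o - E) w' = o - E := Function.update_self _ _ _
  have fA2 : ∀ x ∈ A, Function.update f w' (o - E) x = f x :=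
    fun x hx => upd_mem hwA' hx
  obtain ⟨f2, hf2⟩ : ∃ f2, f2 = Function.update f w' (o - E) := ⟨_, rfl⟩
  rw [← hf2] at l1 l2 l3 bd2 fw2 fA2
  refine ⟨insert w' A, f2, E, ?_, l1, ?_, ?_, bd2, l3 E hoE (by omega), ?_, ?_, ?_,
    Finset.mem_insert_of_mem pA, Finset.mem_insert_of_mem aA⟩
  · intro x
    rw [Finset.mem_insert, mem]
    constructor
    · rintro (h1 | h1 | ⟨t, h2, h3⟩)
      · exact Or.inr ⟨T + 1, le_rfl, by rw [h1, hw']⟩
      · exact Or.inl h1
      · exact Or.inr ⟨t, by omega, h3⟩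
    · rintro (h1 | ⟨t, h2, h3⟩)
      · exact Or.inr (Or.inl h1)
      · by_cases h4 : t = T + 1
        · left
          rw [h3, hw', h4]
        · exact Or.inr (Or.inr ⟨t, by omega, h3⟩)
  · rw [fA2 v hvA, fv]
  · intro x hx hxv
    rcases Finset.mem_insert.1 hx with h1 | h1
    · rw [h1, fw2]
      omega
    · rw [fA2 x h1]
      exact nz x h1 hxv
  · rw [← hw', fw2]
    exact l2
  · rw [← hw', fw2]
    rcases sgn with ⟨s1, s2, s3⟩ | ⟨s1, s2, s3⟩
    · right
      refine ⟨s1, by omega, ?_⟩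
      intro x hx
      rcases Finset.mem_insert.1 hx with h1 | h1
      · rw [h1, fw2]
        constructor <;> omega
      · rw [fA2 x h1]
        have := s3 x h1
        constructor <;> omega
    · left
      refine ⟨by omega, s2, ?_⟩
      intro x hx
      rcases Finset.mem_insert.1 hx with h1 | h1
      · rw [h1, fw2]
        constructor <;> omega
      · rw [fA2 x h1]
        have := s3 x h1
        constructor <;> omega
  · rw [fA2 p pA, fA2 a aA, op]

theorem path (hd0 : dep v = 0) (hdep : ∀ x, x ≠ v → dep x = dep (par x) + 1) {i : ℕ}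
    (hi : 2 * i + 1 < dep a) :
    ∃ (A : Finset V) (f : V → ℤ) (t : ℤ),
      (∀ x, x ∈ A ↔ (x = v ∨ ∃ t, t < dep a ∧ x = par^[t] a)) ∧ PL par v A f ∧ f v = 0 ∧
      (∀ x ∈ A, x ≠ v → f x ≠ 0) ∧ BD 2 A f ∧ Opn par v A f t ∧ 0 < t ∧ (∀ x ∈ A, f x ≤ t) ∧
      f (par^[2 * i + 1] a) = -f a := by
  obtain ⟨A0, f0, B, h0⟩ := sym_all hd0 hdep hi i le_rfl
  have e0 : i - i = 0 := Nat.sub_self i
  have e1 : i + 1 + i = 2 * i + 1 := by ring
  rw [e0, e1] at h0
  obtain ⟨p, hp⟩ : ∃ p, p = par^[2 * i + 1] a := ⟨_, rfl⟩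
  have base : Upp par v a p (2 * i + 1) A0 f0 (f0 a) := by
    obtain ⟨mem, pl, fv, nz, bd, hB, top, bot, ob, ot, bb⟩ := h0
    rw [Function.iterate_zero_apply] at bot ob
    refine ⟨?_, pl, fv, nz, bd, ob, ot, ?_, ?_, ?_, ?_⟩
    · intro x
      rw [mem]
      constructor
      · rintro (h | ⟨t, h1, h2, h3⟩)
        · exact Or.inl h
        · exact Or.inr ⟨t, h2, h3⟩
      · rintro (h | ⟨t, h2, h3⟩)
        · exact Or.inl h
        · exact Or.inr ⟨t, Nat.zero_le _, h2, h3⟩
    · rcases top with h | h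
      · right
        refine ⟨by omega, by omega, ?_⟩
        intro x hx
        have := bb x hx
        constructor <;> omega
      · left
        refine ⟨by omega, by omega, ?_⟩
        intro x hx
        have := bb x hx
        constructor <;> omega
    · rw [hp, bot]
      ring
    · rw [mem]
      exact Or.inr ⟨2 * i + 1, Nat.zero_le _, le_rfl, hp⟩
    · rw [mem]
      exact Or.inr ⟨0, le_rfl, Nat.zero_le _, rfl⟩
  have all : ∀ k, 2 * i + 1 + k < dep a → ∃ A f o, Upp par v a p (2 * i + 1 + k) A f o := by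
    intro k
    induction k with
    | zero => exact fun _ => ⟨A0, f0, _, base⟩
    | succ k ih =>
      intro hk
      obtain ⟨A, f, o, h⟩ := ih (by omega)
      exact up_step hd0 hdep (by omega) h
  obtain ⟨A, f, o, h⟩ := all (dep a - 1 - (2 * i + 1)) (by omega)
  have e2 : 2 * i + 1 + (dep a - 1 - (2 * i + 1)) = dep a - 1 := by omega
  rw [e2] at h
  obtain ⟨mem, pl, fv, nz, bd, oo, ot, sgn, op, pA, aA⟩ := h
  have mem' : ∀ x, x ∈ A ↔ (x = v ∨ ∃ t, t < dep a ∧ x = par^[t] a) := by
    intro x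
    rw [mem]
    constructor
    · rintro (h | ⟨t, h2, h3⟩)
      · exact Or.inl h
      · exact Or.inr ⟨t, by omega, h3⟩
    · rintro (h | ⟨t, h2, h3⟩)
      · exact Or.inl h
      · exact Or.inr ⟨t, by omega, h3⟩
  rw [hp] at op
  rcases sgn with ⟨s1, s2, s3⟩ | ⟨s1, s2, s3⟩
  · exact ⟨A, f, o, mem', pl, fv, nz, bd, oo, s2, fun x hx => (s3 x hx).2, op⟩
  · refine ⟨A, fun x => -f x, -o, mem', pl_neg pl, ?_, ?_, bd_neg bd, opn_neg oo, by omega, ?_, ?_⟩
    · show -f v = 0
      rw [fv, neg_zero]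
    · intro x hx hxv
      exact neg_ne_zero.2 (nz x hx hxv)
    · intro x hx
      exact neg_le_neg (s3 x hx).1
    · show -f (par^[2 * i + 1] a) = -(-f a)
      rw [op]

end Pool.Agent.H92.AT
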