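import Pool.Agent.H92.AT.Grow2

/-!
# Trees with a vertex, other than the root, that has two children which are not leaves
-/

namespace Pool.Agent.H92.AT

open Pool.Agent.H67.Lob (sg IsPar)
open Pool.Agent.H92.OL

variable {V : Type} [DecidableEq V]

variable {par : V → V} {v : V} {dep : V → ℕ}

theorem twin_case [Fintype V] {L : Finset V} {a d m c : V} {i : ℕ}
    (hd0 : dep v = 0) (hdep : ∀ x, x ≠ v → dep x = dep (par x) + 1)
    (hL : ∀ x ∈ L, x ≠ v ∧ par x = v ∧ ∀ z, z ≠ v → par z ≠ x)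
    (hi : 2 * i + 1 < dep a) (hdv : d ≠ v) (hpd : par d = a)
    (hmv : m ≠ v) (hpm : par m = par^[2 * i + 1] a) (hma : m ≠ par^[2 * i] a)
    (hcv : c ≠ v) (hpc : par c = m)
    (hlm : ∀ x, x ≠ v → par x = m → x ≠ c → ∀ z, z ≠ v → par z ≠ x)
    (hld : ∀ x, x ≠ v → par x = d → ∀ z, z ≠ v → par z ≠ x)
    (hLA : 2 ^ (Lᶜ).card ≤ L.card) :
    ∃ F : V → ZMod (Fintype.card V - 1), Function.Surjective F ∧
      ∀ x y, x ≠ v → y ≠ v → F x + F (par x) = F y + F (par y) → x = y := by
  obtain ⟨A0, f0, t, mem0, pl0, fv0, nz0, bd0, ot0, ht0, hi0, op0⟩ := path hd0 hdep hi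
  have ha0 : 0 < dep a := by omega
  have hav : a ≠ v := by
    rintro rfl
    omega
  have haA : a ∈ A0 := (mem0 a).2 (Or.inr ⟨0, ha0, rfl⟩)
  have hvA : v ∈ A0 := (mem0 v).2 (Or.inl rfl)
  have hpA : par m ∈ A0 := (mem0 _).2 (Or.inr ⟨2 * i + 1, hi, hpm⟩)
  -- parents of path vertices
  have parA : ∀ x ∈ A0, x ≠ v → par x ∈ A0 := by
    intro x hx hxv
    obtain ⟨s, h1, h2⟩ := ((mem0 x).1 hx).resolve_left hxv
    have h3 : par x = par^[s + 1] a := by rw [h2, Function.iterate_succ_apply']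
    by_cases h4 : s + 1 = dep a
    · have h5 : dep (par^[s + 1] a) = 0 := by
        rw [dep_iter hd0 hdep (s + 1) (by omega)]
        omega
      rw [h3, dep_zero hdep h5]
      exact hvA
    · exact (mem0 _).2 (Or.inr ⟨s + 1, by omega, h3⟩)
  have chA : ∀ x ∈ A0, x ≠ v → ∃ y, y ≠ v ∧ par y = x := by
    intro x hx hxv
    obtain ⟨s, h1, h2⟩ := ((mem0 x).1 hx).resolve_left hxv
    cases s with
    | zero => exact ⟨d, hdv, by rw [hpd, h2]; rfl⟩
    | succ s => exact ⟨par^[s] a, iter_ne hd0 hdep (by omega), by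
        rw [h2, Function.iterate_succ_apply']⟩
  have hpmv : par m ≠ v := by
    rw [hpm]
    exact iter_ne hd0 hdep hi
  have hdm : dep m = dep a - 2 * i := by
    have h1 := hdep m hmv
    rw [hpm, dep_iter hd0 hdep _ hi.le] at h1
    omega
  have hmA : m ∉ A0 := by
    intro h1
    obtain ⟨s, h2, h3⟩ := ((mem0 m).1 h1).resolve_left hmv
    have h4 := hdm
    rw [h3, dep_iter hd0 hdep s h2.le] at h4
    have h5 : s = 2 * i := by omega
    rw [h5] at h3
    exact hma h3
  have hdd : dep d = dep a + 1 := by rw [hdep d hdv, hpd]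
  have hdA : d ∉ A0 := by
    intro h1
    obtain ⟨s, h2, h3⟩ := ((mem0 d).1 h1).resolve_left hdv
    rw [h3, dep_iter hd0 hdep s h2.le] at hdd
    omega
  have hmd : m ≠ d := by
    rintro rfl
    omega
  have hcA : c ∉ A0 := by
    intro h1
    have := parA c h1 hcv
    rw [hpc] at this
    exact hmA this
  have hcm : c ≠ m := by
    intro h1
    have h2 := hdep c hcv
    rw [hpc, h1] at h2
    omega
  have hcd : c ≠ d := by
    intro h1
    rw [h1, hpd] at hpc
    rw [hpc] at haA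
    exact hmA haA
  have hA03 : 2 ≤ A0.card := by
    have h1 : ({v, a} : Finset V) ⊆ A0 := by
      intro x hx
      rw [Finset.mem_insert, Finset.mem_singleton] at hx
      rcases hx with rfl | rfl
      · exact hvA
      · exact haA
    have h2 : ({v, a} : Finset V).card = 2 := Finset.card_pair hav.symm
    rw [← h2]
    exact Finset.card_le_card h1
  -- the other neighbours of the root
  obtain ⟨U, hmU⟩ : ∃ U : Finset V, ∀ x, x ∈ U ↔ (x ≠ v ∧ par x = v ∧ x ∉ L ∧ x ∉ A0) := by
    refine ⟨Finset.univ.filter (fun x => x ≠ v ∧ par x = v ∧ x ∉ L ∧ x ∉ A0), fun x => ?_⟩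
    rw [Finset.mem_filter]
    exact ⟨fun h => h.2, fun h => ⟨Finset.mem_univ _, h⟩⟩
  obtain ⟨K, hK⟩ : ∃ K : ℤ, K = (U.card : ℤ) + 1 := ⟨_, rfl⟩
  have hU0 : (0 : ℤ) ≤ (U.card : ℤ) := Nat.cast_nonneg _
  have hK0 : K ≠ 0 := by omega
  have hKp : 0 < K := by omega
  obtain ⟨g, g1, g2, g3, g4⟩ := solos (K := K) (pl_scale hK0 pl0) (by rw [fv0, mul_zero]) hvA
    (fun x hx => by
      show K * f0 x ≤ 0 ∨ K ≤ K * f0 x
      by_cases h1 : f0 x ≤ 0
      · left
        exact mul_nonpos_of_nonneg_of_nonpos hKp.le h1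
      · right
        have h2 : 1 ≤ f0 x := by omega
        nlinarith) U
    (fun u hu => by
      obtain ⟨h1, h2, h3, h4⟩ := (hmU u).1 hu
      exact ⟨h4, h1, h2⟩)
    (fun x hx hxv hp => ((hmU _).1 hp).2.2.2 (parA x hx hxv)) (by omega)
  have g2' := g2 _ (opn_scale hK0 ot0)
  have hgv : g v = 0 := by
    rw [g3 v hvA]
    show K * f0 v = 0
    rw [fv0, mul_zero]
  obtain ⟨A1, hA1⟩ : ∃ A1, A1 = A0 ∪ U := ⟨_, rfl⟩
  have hm1 : ∀ x, x ∈ A1 ↔ (x ∈ A0 ∨ x ∈ U) := by
    intro x
    rw [hA1, Finset.mem_union]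
  rw [← hA1] at g1 g2'
  have hdisj : Disjoint A0 U := by
    rw [Finset.disjoint_left]
    intro x h1 h2
    exact ((hmU x).1 h2).2.2.2 h1
  have hcard1 : A1.card = A0.card + U.card := by rw [hA1, Finset.card_union_of_disjoint hdisj]
  have hKt : K ≤ K * t := by nlinarith
  have hUpow : (U.card : ℤ) + 1 ≤ 2 ^ U.card := by
    have h5 : U.card + 1 ≤ 2 ^ U.card := Nat.lt_two_pow_self
    exact_mod_cast h5
  have hA0pow : (4 : ℤ) ≤ 2 ^ A0.card := by
    have h1 : (2 : ℤ) ^ 2 ≤ 2 ^ A0.card := pow_le_pow_right₀ (by norm_num) hA03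
    linarith
  have hUp0 : (0 : ℤ) < 2 ^ U.card := by positivity
  have bd1 : BD 2 A1 g := by
    intro x hx
    rw [hcard1, pow_add]
    rcases (hm1 x).1 hx with h1 | h1
    · rw [g3 x h1]
      show 8 * |K * f0 x| ≤ _
      rw [abs_mul, abs_of_pos hKp]
      have h2 := bd0 x h1
      have h3 : (0 : ℤ) ≤ |f0 x| := abs_nonneg _
      have h4 : K * (8 * |f0 x|) ≤ 2 ^ U.card * (2 * 2 ^ A0.card) := by
        apply mul_le_mul _ h2 (by positivity) (by positivity)
        rw [hK]
        exact hUpow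
      linarith
    · have h2 := g4 x h1
      rw [abs_of_pos h2.1]
      have h3 : 4 * (2 : ℤ) ^ U.card ≤ 2 ^ A0.card * 2 ^ U.card :=
        mul_le_mul_of_nonneg_right hA0pow hUp0.le
      linarith
  have nz1 : ∀ x ∈ A1, x ≠ v → g x ≠ 0 := by
    intro x hx hxv
    rcases (hm1 x).1 hx with h1 | h1
    · rw [g3 x h1]
      exact mul_ne_zero hK0 (nz0 x h1 hxv)
    · have := g4 x h1
      omega
  have hi1 : ∀ x ∈ A1, g x ≤ K * t := by
    intro x hx
    rcases (hm1 x).1 hx with h1 | h1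
    · rw [g3 x h1]
      exact mul_le_mul_of_nonneg_left (hi0 x h1) hKp.le
    · have := g4 x h1
      omega
  -- the label of `c`
  obtain ⟨q, hq⟩ : ∃ q, A1.card = q + 2 := ⟨A1.card - 2, by omega⟩
  obtain ⟨s, hs⟩ : ∃ s : ℤ, s = 2 * 2 ^ q := ⟨_, rfl⟩
  have hqp : (0 : ℤ) < 2 ^ q := by positivity
  have hs0 : 0 < s := by omega
  have hbs : ∀ x ∈ A1, -s < g x ∧ g x < s := by
    intro x hx
    have h1 := bd1 x hx
    rw [hq, pow_add] at h1
    have h2 : |g x| < s := by
      rw [hs]
      norm_num at h1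
      linarith
    exact abs_lt.1 h2
  have hpcx : par c ∉ insert c A1 := by
    rw [hpc, Finset.mem_insert, hm1]
    rintro (h1 | h1 | h1)
    · exact hcm h1.symm
    · exact hmA h1
    · exact hpmv ((hmU m).1 h1).2.1
  have hcA1 : c ∉ A1 := by
    rw [hm1]
    rintro (h1 | h1)
    · exact hcA h1
    · have := ((hmU c).1 h1).2.1
      rw [hpc] at this
      exact hmv this
  have parA1 : ∀ x ∈ A1, x ≠ v → par x ∈ A0 := by
    intro x hx hxv
    rcases (hm1 x).1 hx with h1 | h1
    · exact parA x h1 hxv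
    · rw [((hmU x).1 h1).2.1]
      exact hvA
  obtain ⟨k1, k2, k3⟩ := add_iso g1 hcA1 (t := -s) hpcx
    (fun x hx hxv he => by
      have := parA1 x hx hxv
      rw [he] at this
      exact hcA this)
    (fun x hx he => by
      have := hbs x hx
      omega)
  have fc1 : Function.update g c (-s) c = -s := Function.update_self _ _ _
  have fA1 : ∀ x ∈ A1, Function.update g c (-s) x = g x := fun x hx => upd_mem hcA1 hx
  have hvA1 : v ∈ A1 := (hm1 v).2 (Or.inl hvA)
  have hGr : Gr par v (insert c A1) (Function.update g c (-s)) (K * t) (-s) := by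
    refine ⟨k1, k3 _ g2', k2, ?_, ?_, by omega, by omega, ?_, ?_⟩
    · intro x hx
      rcases Finset.mem_insert.1 hx with rfl | hx'
      · rw [fc1]
        omega
      · rw [fA1 x hx']
        exact hi1 x hx'
    · intro x hx
      rcases Finset.mem_insert.1 hx with rfl | hx'
      · rw [fc1]
      · rw [fA1 x hx']
        exact (hbs x hx').1.le
    · intro x hx hxv
      rcases Finset.mem_insert.1 hx with rfl | hx'
      · rw [fc1]
        omega
      · rw [fA1 x hx']
        exact nz1 x hx' hxv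
    · intro x hx
      rw [Finset.card_insert_of_notMem hcA1, hq, pow_succ, pow_add]
      norm_num
      rcases Finset.mem_insert.1 hx with rfl | hx'
      · rw [fc1, abs_neg, abs_of_pos hs0]
        linarith
      · rw [fA1 x hx']
        have h1 := abs_lt.2 (hbs x hx')
        linarith
  -- the growth
  obtain ⟨S, hmS⟩ : ∃ S : Finset V, ∀ x, x ∈ S ↔
      (x ≠ v ∧ x ∉ L ∧ x ∉ A1 ∧ x ≠ c ∧ x ≠ m ∧ x ≠ d ∧ par x ≠ m ∧ par x ≠ d) := by
    refine ⟨Finset.univ.filter (fun x => x ≠ v ∧ x ∉ L ∧ x ∉ A1 ∧ x ≠ c ∧ x ≠ m ∧ x ≠ d ∧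
      par x ≠ m ∧ par x ≠ d), fun x => ?_⟩
    rw [Finset.mem_filter]
    exact ⟨fun h => h.2, fun h => ⟨Finset.mem_univ _, h⟩⟩
  have hnoL : ∀ x, x ≠ v → par x ∉ L := fun x hxv hp => (hL _ hp).2.2 x hxv rfl
  have hSpv : ∀ x ∈ S, par x ≠ v := by
    intro x hx he
    obtain ⟨h1, h2, h3, _⟩ := (hmS x).1 hx
    apply h3
    rw [hm1]
    by_cases h4 : x ∈ A0
    · exact Or.inl h4
    · exact Or.inr ((hmU x).2 ⟨h1, he, h2, h4⟩)
  have hA0S : ∀ x ∈ A0, x ∉ S := fun x hx h => ((hmS x).1 h).2.2.1 ((hm1 x).2 (Or.inl hx))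
  obtain ⟨f1, P, N, hI, hold⟩ := grow hdep hGr S
    (fun x hx => by
      obtain ⟨h1, h2, h3, h4, h5, h6, h7, h8⟩ := (hmS x).1 hx
      refine ⟨?_, h1, ?_, hSpv x hx⟩
      · rw [Finset.mem_insert]
        rintro (h9 | h9)
        · exact h4 h9
        · exact h3 h9
      · rw [Finset.mem_union, Finset.mem_insert, hmS]
        by_cases h9 : par x = c
        · exact Or.inl (Or.inl h9)
        · by_cases h10 : par x ∈ A1
          · exact Or.inl (Or.inr h10)
          · right
            have h11 := hSpv x hx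
            refine ⟨h11, hnoL x h1, h10, h9, h7, h8, ?_, ?_⟩
            · intro h12
              exact hlm (par x) h11 h12 h9 x h1 rfl
            · intro h12
              exact hld (par x) h11 h12 x h1 rfl)
    (fun x hx hxv => by
      rcases Finset.mem_insert.1 hx with rfl | hx'
      · rw [hpc]
        exact fun h => ((hmS m).1 h).2.2.2.2.1 rfl
      · exact hA0S _ (parA1 x hx' hxv))
  obtain ⟨T, hT⟩ : ∃ T, T = insert c A1 ∪ S := ⟨_, rfl⟩
  have hmT : ∀ x, x ∈ T ↔ (x = c ∨ x ∈ A1 ∨ x ∈ S) := by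
    intro x
    rw [hT, Finset.mem_union, Finset.mem_insert, or_assoc]
  rw [← hT] at hI
  have fold : ∀ x ∈ A1, f1 x = g x := by
    intro x hx
    rw [hold x (Finset.mem_insert_of_mem hx), fA1 x hx]
  have hA0T : ∀ x ∈ A0, x ∈ T := fun x hx => (hmT x).2 (Or.inr (Or.inl ((hm1 x).2 (Or.inl hx))))
  have hmT' : m ∉ T := by
    rw [hmT, hm1]
    rintro (h1 | (h1 | h1) | h1)
    · exact hcm h1.symm
    · exact hmA h1
    · exact hpmv ((hmU m).1 h1).2.1
    · exact ((hmS m).1 h1).2.2.2.2.1 rfl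
  have hdT' : d ∉ T := by
    rw [hmT, hm1]
    rintro (h1 | (h1 | h1) | h1)
    · exact hcd h1.symm
    · exact hdA h1
    · have := ((hmU d).1 h1).2.1
      rw [hpd] at this
      exact hav this
    · exact ((hmS d).1 h1).2.2.2.2.2.1 rfl
  obtain ⟨W, hmW⟩ : ∃ W : Finset V, ∀ x, x ∈ W ↔ (x ≠ v ∧ (par x = m ∨ par x = d) ∧ x ≠ c) := by
    refine ⟨Finset.univ.filter (fun x => x ≠ v ∧ (par x = m ∨ par x = d) ∧ x ≠ c), fun x => ?_⟩
    rw [Finset.mem_filter]
    exact ⟨fun h => h.2, fun h => ⟨Finset.mem_univ _, h⟩⟩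
  have hparT : ∀ x ∈ T, x ≠ v → x ≠ c → par x ≠ m ∧ par x ≠ d := by
    intro x hx hxv hxc
    rw [hmT] at hx
    rcases hx with h1 | h1 | h1
    · exact absurd h1 hxc
    · have h2 := parA1 x h1 hxv
      constructor
      · intro h3
        rw [h3] at h2
        exact hmA h2
      · intro h3
        rw [h3] at h2
        exact hdA h2
    · obtain ⟨_, _, _, _, _, _, h7, h8⟩ := (hmS x).1 h1
      exact ⟨h7, h8⟩
  have f1m : f1 (par m) = K * f0 (par m) := by
    rw [fold _ ((hm1 _).2 (Or.inl hpA)), g3 _ hpA]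
  have f1a : f1 (par d) = K * f0 a := by
    rw [hpd, fold _ ((hm1 _).2 (Or.inl haA)), g3 _ haA]
  have hbm := hbs _ ((hm1 _).2 (Or.inl hpA))
  have f1m' : f1 (par m) = g (par m) := fold _ ((hm1 _).2 (Or.inl hpA))
  obtain ⟨h, l1, l2, l3⟩ := ending (W := W) hI
    (by rw [fold v hvA1, hgv]) (hA0T v hvA) hmT' hdT' hmd (hA0T _ hpA)
    (by rw [hpd]; exact hA0T a haA) ((hmT c).2 (Or.inl rfl)) hpc
    (fun x hx hxv hpx => by
      by_contra h5
      exact (hparT x hx hxv h5).1 hpx)
    (fun x hx hxv hpx => by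
      by_cases h5 : x = c
      · rw [h5, hpc] at hpx
        exact hmd hpx
      · exact (hparT x hx hxv h5).2 hpx)
    (s := s) (by rw [hold c (Finset.mem_insert_self _ _), fc1])
    (by rw [f1a, f1m, hpm, op0]; ring)
    (by
      rw [f1m]
      exact mul_ne_zero hK0 (nz0 _ hpA hpmv))
    (by rw [f1m']; omega) hs0
    (fun z hz => by
      obtain ⟨w1, w2, w3⟩ := (hmW z).1 hz
      refine ⟨?_, ?_, ?_, w1, w2⟩
      · intro h5
        have h6 := hparT z h5 w1 w3
        rcases w2 with h7 | h7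
        · exact h6.1 h7
        · exact h6.2 h7
      · rintro rfl
        rcases w2 with h7 | h7
        · rw [h7] at hpA
          exact hmA hpA
        · rw [h7] at hpA
          exact hdA hpA
      · rintro rfl
        rw [hpd] at w2
        rcases w2 with h7 | h7
        · rw [h7] at haA
          exact hmA haA
        · rw [h7] at haA
          exact hdA haA)
    (fun x hxv hp => by
      obtain ⟨w1, w2, w3⟩ := (hmW _).1 hp
      rcases w2 with h7 | h7
      · exact hlm (par x) w1 h7 w3 x hxv rfl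
      · exact hld (par x) w1 h7 x hxv rfl)
  have hAL : ∀ x, x ∈ insert d (insert m T) ∪ W ↔ x ∉ L := by
    intro x
    rw [Finset.mem_union, Finset.mem_insert, Finset.mem_insert, hmT]
    constructor
    · rintro ((rfl | rfl | rfl | h1 | h1) | h1) hxL
      · have := (hL x hxL).2.1
        rw [hpd] at this
        exact hav this
      · exact hpmv (hL x hxL).2.1
      · have := (hL x hxL).2.1
        rw [hpc] at this
        exact hmv this
      · rcases (hm1 x).1 h1 with h2 | h2
        · obtain ⟨y, hy1, hy2⟩ := chA x h2 (hL x hxL).1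
          exact (hL x hxL).2.2 y hy1 hy2
        · exact ((hmU x).1 h2).2.2.1 hxL
      · exact ((hmS x).1 h1).2.1 hxL
      · have h2 := (hL x hxL).2.1
        rcases ((hmW x).1 h1).2.1 with h3 | h3
        · rw [h3] at h2
          exact hmv h2
        · rw [h3] at h2
          exact hdv h2
    · intro hxL
      by_cases h1 : x ∈ A1
      · exact Or.inl (Or.inr (Or.inr (Or.inr (Or.inl h1))))
      · by_cases h2 : x = c
        · exact Or.inl (Or.inr (Or.inr (Or.inl h2)))
        · by_cases h3 : x = m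
          · exact Or.inl (Or.inr (Or.inl h3))
          · by_cases h4 : x = d
            · exact Or.inl (Or.inl h4)
            · have hxv : x ≠ v := by
                rintro rfl
                exact h1 hvA1
              by_cases h5 : par x = m
              · exact Or.inr ((hmW x).2 ⟨hxv, Or.inl h5, h2⟩)
              · by_cases h6 : par x = d
                · exact Or.inr ((hmW x).2 ⟨hxv, Or.inr h6, h2⟩)
                · exact Or.inl (Or.inr (Or.inr (Or.inr (Or.inr
                    ((hmS x).2 ⟨hxv, hxL, h1, h2, h3, h4, h5, h6⟩)))))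
  have hvF : v ∈ insert d (insert m T) ∪ W := Finset.mem_union_left _
    (Finset.mem_insert_of_mem (Finset.mem_insert_of_mem (hA0T v hvA)))
  have hcl : ∀ x ∈ insert d (insert m T) ∪ W, x ≠ v → par x ∈ insert d (insert m T) ∪ W := by
    intro x _ hxv
    rw [hAL]
    exact hnoL x hxv
  have hle := card_le_compl fun x hx => (hAL x).1 hx
  refine fin_step (out_of_PL l1 hvF hcl l2 l3) L hAL (fun x hx => (hL x hx).2.1) ?_ ?_
  · exact three_card (u := m) (c := d) hvF
      (Finset.mem_union_left _ (Finset.mem_insert_of_mem (Finset.mem_insert_self _ _)))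
      (Finset.mem_union_left _ (Finset.mem_insert_self _ _)) hmv hdv hmd.symm
  · exact le_trans (Nat.pow_le_pow_right (by norm_num) hle) hLA

end Pool.Agent.H92.AT
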