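import Pool.Agent.H92.OL.CaseA

/-!
# Adding a vertex above its child, and adding twins
-/

namespace Pool.Agent.H92.AT

open Pool.Agent.H67.Lob (sg IsPar)
open Pool.Agent.H92.OL

variable {V : Type} [DecidableEq V]

variable {par : V → V} {v : V} {A : Finset V} {f : V → ℤ}

/-- add a vertex `w` whose only labelled neighbour is its child `z` -/
theorem add_up (h : PL par v A f) {w z : V} {t o : ℤ} (ho : Opn par v A f o) (hw : w ∉ A)
    (hpw : par w ∉ insert w A) (hz : z ∈ A)
    (hpz : par z = w) (hch : ∀ x ∈ A, x ≠ v → par x = w → x = z) (hto : t + f z = o)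
    (ht : ∀ z ∈ A, f z ≠ t) :
    PL par v (insert w A) (Function.update f w t) ∧
    Opn par v (insert w A) (Function.update f w t) t ∧
    ∀ o', Opn par v A f o' → o' ≠ o → Opn par v (insert w A) (Function.update f w t) o' := by
  have hzw : z ≠ w := by
    rintro rfl
    exact hw hz
  have hsz : sg par (Function.update f w t) z = o := by
    unfold sg
    rw [hpz, Function.update_self, Function.update_of_ne hzw, add_comm, hto]
  have key : ∀ x ∈ insert w A, x ≠ v → par x ∈ insert w A →
      x = z ∨ (x ∈ A ∧ par x ∈ A ∧ sg par (Function.update f w t) x = sg par f x) := by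
    intro x hx hxv hpx
    rcases Finset.mem_insert.1 hx with rfl | hx'
    · exact absurd hpx hpw
    · by_cases hxz : x = z
      · exact Or.inl hxz
      · right
        have h1 : par x ≠ w := fun h1 => hxz (hch x hx' hxv h1)
        have h2 : par x ∈ A := (Finset.mem_insert.1 hpx).resolve_left h1
        have h3 : x ≠ w := by
          rintro rfl
          exact hw hx'
        exact ⟨hx', h2, sg_update h3 h1⟩
  obtain ⟨zo, hzo, hzo2⟩ := ho.mem
  have hot : o ≠ t := by
    rw [← hzo2]
    exact ht zo hzo
  have hns : ∀ x ∈ A, x ≠ v → par x ∈ A → sg par f x ≠ t := by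
    intro x hx hxv hpx
    obtain ⟨z, hz, hz2⟩ := h.sub x hx hxv hpx
    rw [← hz2]
    exact ht z hz
  refine ⟨⟨upd_inj h hw ht, ?_, ?_⟩, ⟨?_, ?_⟩, ?_⟩
  · intro x hx hxv hpx y hy hyv hpy he
    rcases key x hx hxv hpx with rfl | ⟨a1, a2, a3⟩
    · rcases key y hy hyv hpy with rfl | ⟨b1, b2, b3⟩
      · rfl
      · rw [hsz, b3] at he
        exact absurd he.symm (ho.ns y b1 hyv b2)
    · rcases key y hy hyv hpy with rfl | ⟨b1, b2, b3⟩
      · rw [hsz, a3] at he
        exact absurd he (ho.ns x a1 hxv a2)
      · rw [a3, b3] at he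
        exact h.injs x a1 hxv a2 y b1 hyv b2 he
  · intro x hx hxv hpx
    rcases key x hx hxv hpx with rfl | ⟨a1, a2, a3⟩
    · exact ⟨zo, Finset.mem_insert_of_mem hzo, by rw [upd_mem hw hzo, hsz, hzo2]⟩
    · obtain ⟨z, hz, hz2⟩ := h.sub x a1 hxv a2
      exact ⟨z, Finset.mem_insert_of_mem hz, by rw [upd_mem hw hz, a3, hz2]⟩
  · exact ⟨w, Finset.mem_insert_self _ _, Function.update_self _ _ _⟩
  · intro x hx hxv hpx
    rcases key x hx hxv hpx with rfl | ⟨a1, a2, a3⟩
    · rw [hsz]
      exact hot
    · rw [a3]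
      exact hns x a1 hxv a2
  · intro o' ho' hne
    refine ⟨?_, ?_⟩
    · obtain ⟨z, hz, hz2⟩ := ho'.mem
      exact ⟨z, Finset.mem_insert_of_mem hz, by rw [upd_mem hw hz, hz2]⟩
    · intro x hx hxv hpx
      rcases key x hx hxv hpx with rfl | ⟨a1, a2, a3⟩
      · rw [hsz]
        exact hne.symm
      · rw [a3]
        exact ho'.ns x a1 hxv a2

/-- add a vertex above its child `z`; the parent of the new vertex is the root or not labelled -/
theorem up (h : PL par v A f) {w z : V} {t o : ℤ} (ho : Opn par v A f o) (hw : w ∉ A)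
    (hwv : w ≠ v) (hpw : par w = v ∨ par w ∉ insert w A) (hfv : f v = 0) (hz : z ∈ A)
    (hpz : par z = w) (hch : ∀ x ∈ A, x ≠ v → par x = w → x = z) (hto : t + f z = o)
    (ht : ∀ z ∈ A, f z ≠ t) :
    PL par v (insert w A) (Function.update f w t) ∧
    (par w ≠ v → Opn par v (insert w A) (Function.update f w t) t) ∧
    ∀ o', Opn par v A f o' → o' ≠ o → Opn par v (insert w A) (Function.update f w t) o' := by
  by_cases hp : par w = v
  · obtain ⟨k1, k2⟩ := add_top h ho hw hwv hp hfv hz hpz hch hto ht
    exact ⟨k1, fun h1 => absurd hp h1, k2⟩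
  · obtain ⟨k1, k2, k3⟩ := add_up h ho hw (hpw.resolve_left hp) hz hpz hch hto ht
    exact ⟨k1, fun _ => k2, k3⟩

/-- twins: `m` and `d` get the labels `t`, `t'`; the edge sum at each is the label of the other; `c` is
the only labelled child of `m` -/
theorem add_twin (h : PL par v A f) {m d c : V} {t t' o : ℤ} (ho : Opn par v A f o) (hm : m ∉ A)
    (hd : d ∉ A) (hmd : m ≠ d) (hpm : par m ∈ A) (hpd : par d ∈ A)
    (hc : c ∈ A) (hpc : par c = m)
    (hchm : ∀ x ∈ A, x ≠ v → par x = m → x = c) (hchd : ∀ x ∈ A, x ≠ v → par x ≠ d)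
    (h1 : t + f (par m) = t') (h2 : t' + f (par d) = t) (hto : t + f c = o) (htt : t ≠ t')
    (ht : ∀ z ∈ A, f z ≠ t) (ht' : ∀ z ∈ A, f z ≠ t') :
    PL par v (insert d (insert m A)) (Function.update (Function.update f m t) d t') ∧
    ∀ o', Opn par v A f o' → o' ≠ o →
      Opn par v (insert d (insert m A)) (Function.update (Function.update f m t) d t') o' := by
  obtain ⟨g, hg⟩ : ∃ g, g = Function.update (Function.update f m t) d t' := ⟨_, rfl⟩
  rw [← hg]
  have gd : g d = t' := by
    rw [hg]
    exact Function.update_self _ _ _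
  have gm : g m = t := by
    rw [hg, Function.update_of_ne hmd, Function.update_self]
  have gA : ∀ x ∈ A, g x = f x := by
    intro x hx
    rw [hg, upd_mem (A := insert m A) (by
      rw [Finset.mem_insert]
      rintro (h3 | h3)
      · exact hmd h3.symm
      · exact hd h3) (Finset.mem_insert_of_mem hx), upd_mem hm hx]
  have sd : sg par g d = t := by
    unfold sg
    rw [gd, gA _ hpd, h2]
  have sm : sg par g m = t' := by
    unfold sg
    rw [gm, gA _ hpm, h1]
  have sc : sg par g c = o := by
    unfold sg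
    rw [gA c hc, hpc, gm, add_comm, hto]
  have key : ∀ x ∈ insert d (insert m A), x ≠ v → par x ∈ insert d (insert m A) →
      x = d ∨ x = m ∨ x = c ∨ (x ∈ A ∧ par x ∈ A ∧ sg par g x = sg par f x) := by
    intro x hx hxv hpx
    rcases Finset.mem_insert.1 hx with hx' | hx'
    · exact Or.inl hx'
    · rcases Finset.mem_insert.1 hx' with hx'' | hx''
      · exact Or.inr (Or.inl hx'')
      · by_cases hxc : x = c
        · exact Or.inr (Or.inr (Or.inl hxc))
        · refine Or.inr (Or.inr (Or.inr ⟨hx'', ?_, ?_⟩))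
          · rcases Finset.mem_insert.1 hpx with h3 | h3
            · exact absurd h3 (hchd x hx'' hxv)
            · rcases Finset.mem_insert.1 h3 with h4 | h4
              · exact absurd (hchm x hx'' hxv h4) hxc
              · exact h4
          · have hpA : par x ∈ A := by
              rcases Finset.mem_insert.1 hpx with h3 | h3
              · exact absurd h3 (hchd x hx'' hxv)
              · rcases Finset.mem_insert.1 h3 with h4 | h4
                · exact absurd (hchm x hx'' hxv h4) hxc
                · exact h4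
            unfold sg
            rw [gA x hx'', gA _ hpA]
  obtain ⟨zo, hzo, hzo2⟩ := ho.mem
  have hot : o ≠ t := by
    rw [← hzo2]
    exact ht zo hzo
  have hot' : o ≠ t' := by
    rw [← hzo2]
    exact ht' zo hzo
  have hns : ∀ x ∈ A, x ≠ v → par x ∈ A → sg par f x ≠ t := by
    intro x hx hxv hpx
    obtain ⟨z, hz, hz2⟩ := h.sub x hx hxv hpx
    rw [← hz2]
    exact ht z hz
  have hns' : ∀ x ∈ A, x ≠ v → par x ∈ A → sg par f x ≠ t' := by
    intro x hx hxv hpx
    obtain ⟨z, hz, hz2⟩ := h.sub x hx hxv hpx
    rw [← hz2]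
    exact ht' z hz
  have memA : ∀ x ∈ A, x ∈ insert d (insert m A) := fun x hx =>
    Finset.mem_insert_of_mem (Finset.mem_insert_of_mem hx)
  refine ⟨⟨?_, ?_, ?_⟩, ?_⟩
  · intro x hx y hy he
    rcases Finset.mem_insert.1 hx with rfl | hx'
    · rcases Finset.mem_insert.1 hy with rfl | hy'
      · rfl
      · rcases Finset.mem_insert.1 hy' with rfl | hy''
        · rw [gd, gm] at he
          exact absurd he.symm htt
        · rw [gd, gA y hy''] at he
          exact absurd he.symm (ht' y hy'')
    · rcases Finset.mem_insert.1 hx' with rfl | hx''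
      · rcases Finset.mem_insert.1 hy with rfl | hy'
        · rw [gd, gm] at he
          exact absurd he htt
        · rcases Finset.mem_insert.1 hy' with rfl | hy''
          · rfl
          · rw [gm, gA y hy''] at he
            exact absurd he.symm (ht y hy'')
      · rcases Finset.mem_insert.1 hy with rfl | hy'
        · rw [gd, gA x hx''] at he
          exact absurd he (ht' x hx'')
        · rcases Finset.mem_insert.1 hy' with rfl | hy''
          · rw [gm, gA x hx''] at he
            exact absurd he (ht x hx'')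
          · rw [gA x hx'', gA y hy''] at he
            exact h.inj x hx'' y hy'' he
  · intro x hx hxv hpx y hy hyv hpy he
    rcases key x hx hxv hpx with rfl | rfl | rfl | ⟨a1, a2, a3⟩
    · rcases key y hy hyv hpy with rfl | rfl | rfl | ⟨b1, b2, b3⟩
      · rfl
      · rw [sd, sm] at he
        exact absurd he htt
      · rw [sd, sc] at he
        exact absurd he.symm hot
      · rw [sd, b3] at he
        exact absurd he.symm (hns y b1 hyv b2)
    · rcases key y hy hyv hpy with rfl | rfl | rfl | ⟨b1, b2, b3⟩
      · rw [sd, sm] at he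
        exact absurd he.symm htt
      · rfl
      · rw [sm, sc] at he
        exact absurd he.symm hot'
      · rw [sm, b3] at he
        exact absurd he.symm (hns' y b1 hyv b2)
    · rcases key y hy hyv hpy with rfl | rfl | rfl | ⟨b1, b2, b3⟩
      · rw [sc, sd] at he
        exact absurd he hot
      · rw [sc, sm] at he
        exact absurd he hot'
      · rfl
      · rw [sc, b3] at he
        exact absurd he.symm (ho.ns y b1 hyv b2)
    · rcases key y hy hyv hpy with rfl | rfl | rfl | ⟨b1, b2, b3⟩
      · rw [a3, sd] at he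
        exact absurd he (hns x a1 hxv a2)
      · rw [a3, sm] at he
        exact absurd he (hns' x a1 hxv a2)
      · rw [a3, sc] at he
        exact absurd he (ho.ns x a1 hxv a2)
      · rw [a3, b3] at he
        exact h.injs x a1 hxv a2 y b1 hyv b2 he
  · intro x hx hxv hpx
    rcases key x hx hxv hpx with rfl | rfl | rfl | ⟨a1, a2, a3⟩
    · exact ⟨m, Finset.mem_insert_of_mem (Finset.mem_insert_self _ _), by rw [gm, sd]⟩
    · exact ⟨d, Finset.mem_insert_self _ _, by rw [gd, sm]⟩
    · exact ⟨zo, memA zo hzo, by rw [gA zo hzo, sc, hzo2]⟩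
    · obtain ⟨z, hz, hz2⟩ := h.sub x a1 hxv a2
      exact ⟨z, memA z hz, by rw [gA z hz, a3, hz2]⟩
  · intro o' ho' hne
    obtain ⟨z, hz, hz2⟩ := ho'.mem
    refine ⟨⟨z, memA z hz, by rw [gA z hz, hz2]⟩, ?_⟩
    intro x hx hxv hpx
    rcases key x hx hxv hpx with rfl | rfl | rfl | ⟨a1, a2, a3⟩
    · rw [sd, ← hz2]
      exact (ht z hz).symm
    · rw [sm, ← hz2]
      exact (ht' z hz).symm
    · rw [sc]
      exact hne.symm
    · rw [a3]
      exact ho'.ns x a1 hxv a2

end Pool.Agent.H92.AT
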